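import Pool.Agent.H20.FrS4

namespace Pool.Agent.Results.MP_16b0c2_al.Contain

universe u

theorem result (F : Type u) [Group F] [IsFreeGroup F] (hF : ¬ IsCyclic F) (R S : Subgroup F)
    (hR : R.Normal) (hRS : ⁅R, R⁆ ≤ ⁅S, S⁆) : R ≤ S :=
  Pool.Agent.H20.FrS.main' hF R S hRS

end Pool.Agent.Results.MP_16b0c2_al.Contain
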